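import Mathlib
import Pool.Agent.V11310.Reg
import Pool.Agent.V11310.BaumSweet
import Pool.Agent.V11310.BaumSweet2

namespace Pool.Agent.Results.MP_0f6055_nt.NotRegular

/-- `b^{(r)}_m`: equal to `1` if the length of every maximal block of zeros of the binary
expansion of `m` (without leading zeros) is a multiple of `r`, and to `0` otherwise.
`IsZeroBlock m i l` says that the digits of `m` at positions `i, …, i+l-1` (`l > 0`) form such
a maximal block. For `m = 0` there is no block, so the value is `1`. -/
noncomputable def b (r m : ℕ) : ℕ :=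
  open Classical in
  if ∀ i l, Pool.Agent.V11310.BaumSweet.IsZeroBlock m i l → r ∣ l then 1 else 0

/-- For every `r ≥ 2`, the increasing enumeration of the zeros of `b^{(r)}` is not `k`-regular
for any `k ≥ 2`. -/
theorem result (r : ℕ) (hr : 2 ≤ r) (h : ℕ → ℕ) (hmono : StrictMono h)
    (hrange : Set.range h = {m | b r m = 0}) (k : ℕ) (hk : 2 ≤ k) :
    ¬ Pool.Agent.V11310.Reg.IsRegular k (fun n => (h n : ℤ)) := by
  apply Pool.Agent.V11310.BaumSweet.main hr hmono _ hk
  rw [hrange]
  ext m
  show b r m = 0 ↔ ¬ Pool.Agent.V11310.BaumSweet.B r m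
  unfold b Pool.Agent.V11310.BaumSweet.B
  split_ifs with hc
  · exact ⟨fun h => absurd h (by simp), fun h => absurd hc h⟩
  · exact ⟨fun _ => hc, fun _ => rfl⟩

end Pool.Agent.Results.MP_0f6055_nt.NotRegular
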